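import Pool.Agent.W978.QO.Stm
import Pool.Agent.W509.QN.BR
import Pool.Agent.W597.QN.RK
import Pool.Agent.W585.QN.DET

set_option autoImplicit false

/-! Project QO, part DC: the determinants in curried form. -/

namespace Pool.Agent.W125.QO

open Pool.Agent.W978.QN Pool.Agent.W978.QO

theorem dc : S_DC := by
  intro a ha σ
  have h01 : σ 0 ≠ σ 1 := fun h => absurd (σ.injective h) (by decide)
  have h02 : σ 0 ≠ σ 2 := fun h => absurd (σ.injective h) (by decide)
  have h12 : σ 1 ≠ σ 2 := fun h => absurd (σ.injective h) (by decide)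
  obtain ⟨P, hP⟩ := Pool.Agent.W585.QN.main Pool.Agent.W509.QN.br (Pool.Agent.W597.QN.rk Pool.Agent.W509.QN.br) a ha (σ 1) (σ 2) h12
  refine ⟨P (σ 0), ?_⟩
  have h2 : Matrix.of (mp (cu a σ) (P (σ 0))) = (mt a (σ 1) (σ 2) P).transpose := by
    ext w u
    change ∑ m, (cu a σ m u w : ℂ) * P (σ 0) m =
      tf a (Function.update (Function.update P (σ 1) (bv u)) (σ 2) (bv w))
    rw [Pool.Agent.W509.QN.br ℂ a σ, Function.update_self, Function.update_of_ne h12, Function.update_self,
      Function.update_of_ne h02, Function.update_of_ne h01]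
    simp only [cf, bv, Pi.single_apply]
    simp
  rw [h2, Matrix.det_transpose]
  exact hP

end Pool.Agent.W125.QO
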