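import Pool.Agent.W978.QO.Stm

set_option autoImplicit false

/-! Project QO, part LS: summation of the lower bounds. -/

namespace Pool.Agent.W125.QO

open Finset Pool.Agent.W978.QN Pool.Agent.W978.QO

theorem nm_nn (v : Fin 3 → ℤ) : 0 ≤ nm v := (abs_nonneg (v 2)).trans (le_max_right _ _)

theorem two_det {x : ℤ} {k l : ℕ} (h1 : x ≤ ((2 ^ k : ℕ) : ℤ)) (h2 : ((2 ^ l : ℕ) : ℤ) < 2 * x) : l ≤ k := by
  by_contra h
  have h3 : 2 ^ (k + 1) ≤ 2 ^ l := Nat.pow_le_pow_right (by norm_num) (by omega)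
  have h4 : (2 : ℕ) ^ (k + 1) = 2 * 2 ^ k := by ring
  omega

theorem ls : S_LS := by
  classical
  rintro a ⟨c, K, hc, hbox⟩
  refine ⟨c / 5184, 2 ^ (9 * (2 * (K + 1) + 2)), by positivity, ?_⟩
  intro B hB
  obtain ⟨m, hm⟩ : ∃ m, m = Nat.log 2 B / 9 := ⟨_, rfl⟩
  have hB0 : B ≠ 0 := by
    have : 0 < 2 ^ (9 * (2 * (K + 1) + 2)) := by positivity
    omega
  have hlog : 9 * (2 * (K + 1) + 2) ≤ Nat.log 2 B := Nat.le_log_of_pow_le (by norm_num) hB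
  have hmK : 2 * (K + 1) + 2 ≤ m := by omega
  have hpow : 2 ^ (9 * m) ≤ B :=
    (Nat.pow_le_pow_right (by norm_num) (by omega)).trans (Nat.pow_log_le_self 2 hB0)
  have hKp : ∀ j, K + 1 ≤ j → K ≤ 2 ^ j := fun j hj => by
    have := Nat.lt_two_pow_self (n := j)
    omega
  have hS : ∀ q : ℕ × ℕ, ∃ S : Finset (Fin 3 → Fin 3 → ℤ),
      q ∈ (Finset.Ico (K + 1) m) ×ˢ (Finset.Ico (K + 1) m) →
      ((∀ P ∈ S, (∀ i, Rep (P i)) ∧ tf a P = 0 ∧ InU a P ∧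
        nm (P 0) ≤ ((2 ^ q.1 : ℕ) : ℤ) ∧ ((2 ^ q.1 : ℕ) : ℤ) < 2 * nm (P 0) ∧
        nm (P 1) ≤ ((2 ^ q.2 : ℕ) : ℤ) ∧ ((2 ^ q.2 : ℕ) : ℤ) < 2 * nm (P 1) ∧
        nm (P 2) ≤ ((B / (2 ^ q.1 * 2 ^ q.2) : ℕ) : ℤ)) ∧
        c * ((B : ℝ) / 2) ^ 2 ≤ (S.card : ℝ)) := by
    intro q
    by_cases hq : q ∈ (Finset.Ico (K + 1) m) ×ˢ (Finset.Ico (K + 1) m)
    · rw [Finset.mem_product, Finset.mem_Ico, Finset.mem_Ico] at hq
      obtain ⟨⟨hk1, hk2⟩, hl1, hl2⟩ := hq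
      have hX : 0 < 2 ^ q.1 * 2 ^ q.2 := by positivity
      have h8 : 2 ^ q.1 * 2 ^ q.2 ≤ 2 ^ (2 * m) := by
        rw [← pow_add]
        exact Nat.pow_le_pow_right (by norm_num) (by omega)
      have h9 : K * (2 ^ q.1 * 2 ^ q.2) ^ 3 * (2 ^ q.1 * 2 ^ q.2) ≤ B := by
        calc K * (2 ^ q.1 * 2 ^ q.2) ^ 3 * (2 ^ q.1 * 2 ^ q.2)
            = K * (2 ^ q.1 * 2 ^ q.2) ^ 4 := by ring
          _ ≤ 2 ^ m * (2 ^ (2 * m)) ^ 4 :=
              Nat.mul_le_mul (hKp m (by omega)) (Nat.pow_le_pow_left h8 4)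
          _ = 2 ^ (9 * m) := by
              rw [← pow_mul, ← pow_add]
              congr 1
              omega
          _ ≤ B := hpow
      have h10 : 2 ^ q.1 * 2 ^ q.2 ≤ B :=
        h8.trans ((Nat.pow_le_pow_right (by norm_num) (by omega)).trans hpow)
      obtain ⟨S, hS1, hS2⟩ := hbox (2 ^ q.1) (2 ^ q.2) (B / (2 ^ q.1 * 2 ^ q.2)) (hKp _ hk1) (hKp _ hl1)
        ((Nat.le_div_iff_mul_le hX).2 h9)
      refine ⟨S, fun _ => ⟨hS1, ?_⟩⟩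
      refine le_trans ?_ hS2
      refine mul_le_mul_of_nonneg_left ?_ hc.le
      refine pow_le_pow_left₀ (by positivity) ?_ 2
      have h11 : 1 ≤ B / (2 ^ q.1 * 2 ^ q.2) := (Nat.one_le_div_iff hX).2 h10
      have h12 : B < 2 ^ q.1 * 2 ^ q.2 * (B / (2 ^ q.1 * 2 ^ q.2) + 1) := Nat.lt_mul_div_succ B hX
      have h13 : B ≤ 2 * (2 ^ q.1 * 2 ^ q.2 * (B / (2 ^ q.1 * 2 ^ q.2))) := by
        nlinarith
      have h14 : (B : ℝ) ≤ 2 * (((2 ^ q.1 : ℕ) : ℝ) * ((2 ^ q.2 : ℕ) : ℝ) *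
          ((B / (2 ^ q.1 * 2 ^ q.2) : ℕ) : ℝ)) := by exact_mod_cast h13
      linarith
    · exact ⟨∅, fun h => absurd h hq⟩
  choose S hSS using hS
  obtain ⟨I, hI⟩ : ∃ I, I = (Finset.Ico (K + 1) m) ×ˢ (Finset.Ico (K + 1) m) := ⟨_, rfl⟩
  refine ⟨I.biUnion S, ?_, ?_⟩
  · intro P hP
    rw [Finset.mem_biUnion] at hP
    obtain ⟨q, hq, hPq⟩ := hP
    obtain ⟨h1, h2, h3, h4, -, h5, -, h6⟩ := (hSS q (hI ▸ hq)).1 P hPq
    refine ⟨h1, h2, h3, ?_⟩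
    rw [Fin.prod_univ_three]
    have h7 := mul_le_mul (mul_le_mul h4 h5 (nm_nn _) (by positivity)) h6 (nm_nn _) (by positivity)
    refine h7.trans ?_
    exact_mod_cast Nat.mul_div_le B (2 ^ q.1 * 2 ^ q.2)
  · have hdis : (I : Set (ℕ × ℕ)).PairwiseDisjoint S := by
      intro q hq r hr hqr
      rw [Function.onFun, Finset.disjoint_left]
      intro P hPq hPr
      apply hqr
      obtain ⟨-, -, -, a1, a2, a3, a4, -⟩ := (hSS q (hI ▸ hq)).1 P hPq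
      obtain ⟨-, -, -, b1, b2, b3, b4, -⟩ := (hSS r (hI ▸ hr)).1 P hPr
      have e1 := two_det a1 b2
      have e2 := two_det b1 a2
      have e3 := two_det a3 b4
      have e4 := two_det b3 a4
      ext
      · omega
      · omega
    rw [Finset.card_biUnion hdis]
    push_cast
    have h1 : (I.card : ℝ) * (c * ((B : ℝ) / 2) ^ 2) ≤ ∑ q ∈ I, ((S q).card : ℝ) := by
      have := Finset.card_nsmul_le_sum I (fun q => ((S q).card : ℝ)) (c * ((B : ℝ) / 2) ^ 2)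
        (fun q hq => (hSS q (hI ▸ hq)).2)
      rwa [nsmul_eq_mul] at this
    refine le_trans ?_ h1
    have hcard : (I.card : ℝ) = ((m - (K + 1) : ℕ) : ℝ) ^ 2 := by
      rw [hI, Finset.card_product, Nat.card_Ico]
      push_cast
      ring
    have hBm : B < 2 ^ (9 * (m + 1)) := by
      have h2 := Nat.lt_pow_succ_log_self (b := 2) (by norm_num) B
      refine h2.trans_le (Nat.pow_le_pow_right (by norm_num) ?_)
      omega
    have hBr : (1 : ℝ) ≤ B := by exact_mod_cast Nat.one_le_iff_ne_zero.2 hB0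
    have hl0 : 0 ≤ Real.log B := Real.log_nonneg hBr
    have hl1 : Real.log B ≤ 9 * (m + 1) := by
      have h3 : (B : ℝ) ≤ 2 ^ (9 * (m + 1)) := by exact_mod_cast hBm.le
      have h4 := Real.log_le_log (by linarith) h3
      rw [Real.log_pow] at h4
      have h5 : Real.log 2 ≤ 1 := by
        have := Real.log_two_lt_d9
        linarith
      push_cast at h4
      have h6 : (0 : ℝ) ≤ 9 * ((m : ℝ) + 1) := by positivity
      nlinarith
    have hl2 : Real.log B ≤ 36 * ((m - (K + 1) : ℕ) : ℝ) := by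
      have h3 : m + 1 ≤ 4 * (m - (K + 1)) := by omega
      have h4 : (m : ℝ) + 1 ≤ 4 * ((m - (K + 1) : ℕ) : ℝ) := by exact_mod_cast h3
      linarith
    have hl3 : Real.log B ^ 2 ≤ (36 * ((m - (K + 1) : ℕ) : ℝ)) ^ 2 := pow_le_pow_left₀ hl0 hl2 2
    rw [hcard]
    have h7 : 0 ≤ c * (B : ℝ) ^ 2 := by positivity
    calc c / 5184 * (B : ℝ) ^ 2 * Real.log B ^ 2 = (c * (B : ℝ) ^ 2) * Real.log B ^ 2 / 5184 := by ring
      _ ≤ (c * (B : ℝ) ^ 2) * (36 * ((m - (K + 1) : ℕ) : ℝ)) ^ 2 / 5184 := by gcongr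
      _ = _ := by ring

end Pool.Agent.W125.QO
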